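import Pool.Agent.R157.Short.Faces

/-!
MP_b37e0c_co, Q1 (disproof): there is a shortest-path triangulation of the sphere, with twelve
vertices, all of whose edges are shorter than `π / 2`, with neither pole on a vertex or an edge,
which is not sinkable.
-/

namespace Pool.Agent.Results.MP_b37e0c_co.ShortEdges

open Helper479.Sink Pool.Agent.R157.Short

/-- The spherical distance of two points of the unit sphere: the angle between them. -/
noncomputable def sphDist (p q : Fin 3 → ℝ) : ℝ :=
  Real.arccos (p 0 * q 0 + p 1 * q 1 + p 2 * q 2)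

/-- The north pole. -/
def northPole : Fin 3 → ℝ := ![0, 0, 1]

/-- The south pole. -/
def southPole : Fin 3 → ℝ := ![0, 0, -1]

lemma dot_pos {i j : Fin 12} (h : Pool.Agent.R157.Short.G12.Adj i j) :
    0 < Pool.Agent.R157.Short.v12 i 0 * Pool.Agent.R157.Short.v12 j 0 +
      Pool.Agent.R157.Short.v12 i 1 * Pool.Agent.R157.Short.v12 j 1 +
      Pool.Agent.R157.Short.v12 i 2 * Pool.Agent.R157.Short.v12 j 2 := by
  have key : 0 < Z3.dot (Pool.Agent.R157.Short.P i.val) (Pool.Agent.R157.Short.P j.val) := by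
    rcases Pool.Agent.R157.Short.adj_edge h with h | h
    · exact dots_pos _ h
    · have := dots_pos _ h
      have e : Z3.dot (Pool.Agent.R157.Short.P i.val) (Pool.Agent.R157.Short.P j.val) =
          Z3.dot (Pool.Agent.R157.Short.P j.val) (Pool.Agent.R157.Short.P i.val) := by
        unfold Z3.dot; ring
      rw [e]; exact this
  have key' : (0:ℝ) < ((Z3.dot (Pool.Agent.R157.Short.P i.val)
      (Pool.Agent.R157.Short.P j.val) : ℤ) : ℝ) := by exact_mod_cast key
  have h1 := cc_pos i.isLt
  have h2 := cc_pos j.isLt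
  have e : Pool.Agent.R157.Short.v12 i 0 * Pool.Agent.R157.Short.v12 j 0 +
      Pool.Agent.R157.Short.v12 i 1 * Pool.Agent.R157.Short.v12 j 1 +
      Pool.Agent.R157.Short.v12 i 2 * Pool.Agent.R157.Short.v12 j 2 =
      cc i.val * cc j.val * ((Z3.dot (Pool.Agent.R157.Short.P i.val)
        (Pool.Agent.R157.Short.P j.val) : ℤ) : ℝ) := by
    simp only [Pool.Agent.R157.Short.v12, Pi.smul_apply, smul_eq_mul, toR_0, toR_1, toR_2, Z3.dot]
    push_cast
    ring
  rw [e]; positivity

lemma cr_ne : ∀ i j : Fin 12, i ≠ j →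
    (Z3.cross (Pool.Agent.R157.Short.P i.val) (Pool.Agent.R157.Short.P j.val)).z ≠ 0 := by
  decide +kernel

lemma pole_off {x : Fin 3 → ℝ} (h0 : x 0 = 0) (h1 : x 1 = 0) (h2 : x 2 ≠ 0) :
    x ∉ skeleton Pool.Agent.R157.Short.G12 Pool.Agent.R157.Short.v12 := by
  rintro ⟨i, j, hij, hx⟩
  obtain ⟨a, b, ha, hb, rfl⟩ := Pool.Agent.R157.Short.arc_coneE hx
  simp only [Pi.add_apply, Pi.smul_apply, smul_eq_mul, toR_0, toR_1, toR_2] at h0 h1 h2
  have hc : ((Z3.cross (Pool.Agent.R157.Short.P i.val)
      (Pool.Agent.R157.Short.P j.val)).z : ℝ) ≠ 0 := by exact_mod_cast cr_ne i j hij.ne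
  have e1 : a * ((Z3.cross (Pool.Agent.R157.Short.P i.val)
      (Pool.Agent.R157.Short.P j.val)).z : ℝ) = 0 := by
    simp only [Z3.cross]
    push_cast
    linear_combination ((Pool.Agent.R157.Short.P j.val).y : ℝ) * h0 -
      ((Pool.Agent.R157.Short.P j.val).x : ℝ) * h1
  have e2 : b * ((Z3.cross (Pool.Agent.R157.Short.P i.val)
      (Pool.Agent.R157.Short.P j.val)).z : ℝ) = 0 := by
    simp only [Z3.cross]
    push_cast
    linear_combination ((Pool.Agent.R157.Short.P i.val).x : ℝ) * h1 -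
      ((Pool.Agent.R157.Short.P i.val).y : ℝ) * h0
  have a0 := (mul_eq_zero.mp e1).resolve_right hc
  have b0 := (mul_eq_zero.mp e2).resolve_right hc
  apply h2
  rw [a0, b0]; ring

/-- Some shortest-path triangulation of the sphere has all its edges shorter than `π / 2`, has
neither pole on a vertex or an edge, and is not sinkable. -/
theorem result : ∃ (n : ℕ) (G : SimpleGraph (Fin n)) (v : Fin n → Fin 3 → ℝ),
    IsSPT G v ∧
    (∀ i j, G.Adj i j → sphDist (v i) (v j) < Real.pi / 2) ∧
    (∀ i, v i ≠ northPole ∧ v i ≠ southPole) ∧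
    northPole ∉ skeleton G v ∧ southPole ∉ skeleton G v ∧
    ¬ SinkableE G v := by
  have hN : northPole ∉ skeleton Pool.Agent.R157.Short.G12 Pool.Agent.R157.Short.v12 :=
    pole_off (by simp [northPole]) (by simp [northPole]) (by simp [northPole])
  have hS : southPole ∉ skeleton Pool.Agent.R157.Short.G12 Pool.Agent.R157.Short.v12 :=
    pole_off (by simp [southPole]) (by simp [southPole]) (by simp [southPole])
  have hex : ∀ m : Fin 12, ∃ l : Fin 12, Pool.Agent.R157.Short.adjB m.val l.val = true := by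
    decide +kernel
  have hmem : ∀ i, Pool.Agent.R157.Short.v12 i ∈
      skeleton Pool.Agent.R157.Short.G12 Pool.Agent.R157.Short.v12 := by
    intro i
    obtain ⟨l, hl⟩ := hex i
    exact ⟨i, l, hl, Pool.Agent.R157.Short.v12_mem i, 1, 0, zero_le_one, le_refl _, by simp⟩
  refine ⟨12, Pool.Agent.R157.Short.G12, Pool.Agent.R157.Short.v12,
    Pool.Agent.R157.Short.spt12, ?_, ?_, hN, hS, Pool.Agent.R157.Short.no_sink⟩
  · intro i j hij
    unfold sphDist
    rw [Real.arccos_lt_pi_div_two]
    exact dot_pos hij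
  · intro i
    exact ⟨fun h => hN (h ▸ hmem i), fun h => hS (h ▸ hmem i)⟩

end Pool.Agent.Results.MP_b37e0c_co.ShortEdges
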